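import Mathlib

set_option autoImplicit false

open Finset PowerSeries

namespace Pool.Agent.Results.MP_6eafb7_an.NorlundPositivity

/-- The power series `(e^t - 1)/t = ∑ t^m/(m+1)!`. -/
noncomputable def E : PowerSeries ℝ := PowerSeries.mk fun m => (((m + 1).factorial : ℕ) : ℝ)⁻¹

/-- The power series `e^{x t} = ∑ x^m t^m/m!`. -/
noncomputable def ex (x : ℝ) : PowerSeries ℝ := PowerSeries.mk fun m => x ^ m / (m.factorial : ℝ)

/-- The generalized Bernoulli polynomial `B_m^{(n)}(x)`, for a natural number `n`: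
`m!` times the coefficient of `t^m` in `(t/(e^t-1))^n e^{xt}`. -/
noncomputable def nb (n m : ℕ) (x : ℝ) : ℝ :=
  (m.factorial : ℝ) * PowerSeries.coeff m (E⁻¹ ^ n * ex x)

/-- `α_{n,k}(x)` (used for `2k ≤ n`). -/
noncomputable def alpha (n k : ℕ) (x : ℝ) : ℝ :=
  (-1) ^ k * ∑ j ∈ range (2 * k + 1), (-1 : ℝ) ^ j * (n.choose j : ℝ) * (n.choose (2 * k - j) : ℝ) *
    nb n (n - j) x * nb n (n - 2 * k + j) x

/-- `β_{n,k}(x)`. -/
noncomputable def beta (n k : ℕ) (x : ℝ) : ℝ :=
  (-1) ^ k * ∑ j ∈ range (2 * k + 1), (-1 : ℝ) ^ j * (n.choose j : ℝ) * (n.choose (2 * k - j) : ℝ) *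
    nb n j x * nb n (2 * k - j) x

/-! ### The generating function -/

theorem ex_eq (x : ℝ) : ex x = rescale x (exp ℝ) := by
  ext m
  simp [ex, coeff_rescale, coeff_exp, div_eq_mul_inv]

theorem ex_add (x y : ℝ) : ex (x + y) = ex x * ex y := by
  rw [ex_eq, ex_eq, ex_eq, exp_mul_exp_eq_exp_add]

theorem X_mul_E : (X : PowerSeries ℝ) * E = ex 1 - 1 := by
  ext m
  cases m with
  | zero => simp [ex]
  | succ m => simp [ex, E, coeff_succ_X_mul, coeff_one]

theorem E_mul_inv : E * E⁻¹ = 1 := by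
  apply PowerSeries.mul_inv_cancel
  simp [E]

theorem deriv_ex (x : ℝ) : d⁄dX ℝ (ex x) = PowerSeries.C x * ex x := by
  ext m
  rw [PowerSeries.coeff_derivative, ex, coeff_mk, coeff_C_mul, coeff_mk, Nat.factorial_succ]
  have h1 : ((m : ℝ) + 1) ≠ 0 := by positivity
  have h2 : (m.factorial : ℝ) ≠ 0 := by positivity
  push_cast
  field_simp
  ring

/-- `t G' = G - t G - G²`. -/
theorem X_mul_deriv_G : (X : PowerSeries ℝ) * d⁄dX ℝ (E⁻¹) = E⁻¹ - X * E⁻¹ - E⁻¹ ^ 2 := by
  set G := E⁻¹ with hG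
  have h1 : G * (ex 1 - 1) = X := by
    rw [← X_mul_E, mul_comm G, mul_assoc, E_mul_inv, mul_one]
  have h2 : d⁄dX ℝ (G * (ex 1 - 1)) = 1 := by rw [h1, PowerSeries.derivative_X]
  rw [Derivation.leibniz, map_sub, deriv_ex, smul_eq_mul, smul_eq_mul,
    PowerSeries.derivative_one, sub_zero, map_one, one_mul] at h2
  -- `G * ex 1 + (ex 1 - 1) * G' = 1`
  have h3 : G * ex 1 = X + G := by linear_combination h1
  calc (X : PowerSeries ℝ) * d⁄dX ℝ G = (G * (ex 1 - 1)) * d⁄dX ℝ G := by rw [h1]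
    _ = G * (1 - G * ex 1) := by linear_combination G * h2
    _ = G - X * G - G ^ 2 := by rw [h3]; ring

theorem nb_zero (n : ℕ) (x : ℝ) : nb n 0 x = 1 := by
  simp [nb, ex, E, PowerSeries.constantCoeff_inv]

/-- the recurrence `B_{N+1}^{(N+2)}(x) = (x - (N+1)) B_N^{(N+1)}(x)`. -/
theorem nb_rec (N : ℕ) (x : ℝ) : nb (N + 2) (N + 1) x = (x - (N + 1)) * nb (N + 1) N x := by
  set G := E⁻¹ with hG
  have h : (X : PowerSeries ℝ) * d⁄dX ℝ (G ^ (N + 1) * ex x) =
      ((N + 1 : ℝ)) • (G ^ (N + 1) * ex x) - (N + 1 : ℝ) • (X * (G ^ (N + 1) * ex x)) -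
        (N + 1 : ℝ) • (G ^ (N + 2) * ex x) + x • (X * (G ^ (N + 1) * ex x)) := by
    rw [Derivation.leibniz, deriv_ex, PowerSeries.derivative_pow]
    simp only [PowerSeries.smul_eq_C_mul, smul_eq_mul, Nat.add_sub_cancel]
    have hc : (PowerSeries.C ((N : ℝ) + 1) : PowerSeries ℝ) = ((N + 1 : ℕ) : PowerSeries ℝ) := by
      push_cast
      rw [map_add, map_one, map_natCast]
    rw [hc]
    have := X_mul_deriv_G
    rw [← hG] at this
    linear_combination (((N + 1 : ℕ) : PowerSeries ℝ) * G ^ N * ex x) * this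
  have h2 := congrArg (PowerSeries.coeff (N + 1)) h
  rw [coeff_succ_X_mul, PowerSeries.coeff_derivative] at h2
  simp only [map_add, map_sub, PowerSeries.coeff_smul, coeff_succ_X_mul, smul_eq_mul] at h2
  rw [nb, nb, Nat.factorial_succ]
  push_cast
  rw [← hG]
  linear_combination (N.factorial : ℝ) * h2

theorem nb_succ (n : ℕ) (x : ℝ) : nb (n + 1) n x = ∏ i ∈ range n, (x - (i + 1)) := by
  induction n with
  | zero => simp [nb_zero]
  | succ n ih => rw [nb_rec, ih, prod_range_succ]; ring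

/-- translation formula -/
theorem nb_add (n m : ℕ) (x y : ℝ) :
    nb n m (x + y) = ∑ r ∈ range (m + 1), (m.choose r : ℝ) * y ^ r * nb n (m - r) x := by
  rw [nb, ex_add, ← mul_assoc, mul_comm, mul_comm _ (ex y), PowerSeries.coeff_mul,
    Finset.Nat.sum_antidiagonal_eq_sum_range_succ_mk, Finset.sum_mul]
  apply Finset.sum_congr rfl
  intro r hr
  have hr' : r ≤ m := Nat.lt_succ_iff.mp (mem_range.mp hr)
  rw [nb, ex, coeff_mk]
  simp only
  have h1 : (m.choose r : ℝ) * r.factorial * (m - r).factorial = m.factorial := by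
    exact_mod_cast Nat.choose_mul_factorial_mul_factorial hr'
  have h2 : (r.factorial : ℝ) ≠ 0 := by positivity
  rw [← h1]
  field_simp

/-- difference formula -/
theorem nb_diff (n : ℕ) (x : ℝ) :
    nb (n + 1) (n + 1) (x + 1) - nb (n + 1) (n + 1) x = (n + 1) * nb n n x := by
  have h : E⁻¹ ^ (n + 1) * ex (x + 1) - E⁻¹ ^ (n + 1) * ex x = X * (E⁻¹ ^ n * ex x) := by
    have h1 : E⁻¹ * (ex 1 - 1) = X := by
      rw [← X_mul_E, mul_comm E⁻¹, mul_assoc, E_mul_inv, mul_one]
    rw [ex_add, pow_succ]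
    linear_combination (E⁻¹ ^ n * ex x) * h1
  rw [nb, nb, nb, ← mul_sub, ← map_sub, h, coeff_succ_X_mul, Nat.factorial_succ]
  push_cast
  ring

theorem hasDerivAt_nb (n : ℕ) (x : ℝ) :
    HasDerivAt (fun u => nb (n + 1) (n + 1) u) ((n + 1) * nb (n + 1) n x) x := by
  have h1 : ∀ u, nb (n + 1) (n + 1) u = ∑ r ∈ range (n + 2),
      ((n + 1).choose r : ℝ) * (u - x) ^ r * nb (n + 1) (n + 1 - r) x := by
    intro u
    rw [← nb_add]; congr 1; ring
  have h2 : (fun u => nb (n + 1) (n + 1) u) = fun u => ∑ r ∈ range (n + 2),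
      ((n + 1).choose r : ℝ) * (u - x) ^ r * nb (n + 1) (n + 1 - r) x := funext h1
  rw [h2]
  have h3 : HasDerivAt (fun u => ∑ r ∈ range (n + 2),
      ((n + 1).choose r : ℝ) * (u - x) ^ r * nb (n + 1) (n + 1 - r) x)
      (∑ r ∈ range (n + 2), ((n + 1).choose r : ℝ) * (r * (x - x) ^ (r - 1) * 1) *
        nb (n + 1) (n + 1 - r) x) x := by
    apply HasDerivAt.fun_sum
    intro r _
    exact ((((hasDerivAt_id x).sub_const x).fun_pow r).const_mul _).mul_const _
  convert h3 using 1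
  rw [Finset.sum_eq_single 1]
  · simp
  · intro r _ hr
    rcases Nat.eq_zero_or_pos r with h0 | h0
    · simp [h0]
    · have : r - 1 ≠ 0 := by omega
      simp [this]
  · intro h
    exact absurd (mem_range.mpr (by omega)) h

theorem continuous_nb (n : ℕ) : Continuous (nb n n) := by
  have h1 : nb n n = fun u => ∑ r ∈ range (n + 1),
      (n.choose r : ℝ) * u ^ r * nb n (n - r) 0 := by
    funext u
    rw [← nb_add, zero_add]
  rw [h1]
  fun_prop

/-- sign of the product -/
theorem sign_prod {n k : ℕ} (hk : k ≤ n) {t : ℝ} (h1 : (k : ℝ) < t) (h2 : t < k + 1) :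
    0 < (-1) ^ (n - k) * ∏ i ∈ range n, (t - ((i : ℝ) + 1)) := by
  rw [← Finset.prod_range_mul_prod_Ico _ hk]
  have e1 : 0 < ∏ i ∈ range k, (t - ((i : ℝ) + 1)) := by
    apply Finset.prod_pos
    intro i hi
    have : (i : ℝ) + 1 ≤ k := by exact_mod_cast (mem_range.mp hi)
    linarith
  have e2 : 0 < (-1 : ℝ) ^ (n - k) * ∏ i ∈ Ico k n, (t - ((i : ℝ) + 1)) := by
    have : (-1 : ℝ) ^ (n - k) = ∏ i ∈ Ico k n, (-1 : ℝ) := by simp
    rw [this, ← Finset.prod_mul_distrib]
    apply Finset.prod_pos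
    intro i hi
    have : (k : ℝ) ≤ i := by exact_mod_cast (mem_Ico.mp hi).1
    linarith
  calc 0 < (∏ i ∈ range k, (t - ((i : ℝ) + 1))) *
        ((-1 : ℝ) ^ (n - k) * ∏ i ∈ Ico k n, (t - ((i : ℝ) + 1))) := mul_pos e1 e2
    _ = _ := by ring

/-- sign of `B_n^{(n)}` at the integers `0, …, n` -/
theorem sign_nb {n k : ℕ} (hk : k ≤ n) : 0 < (-1) ^ (n - k) * nb n n k := by
  set Φ : ℝ → ℝ := fun u => (-1) ^ (n - k) * nb (n + 1) (n + 1) u with hΦ
  have hd : ∀ u, HasDerivAt Φ ((-1) ^ (n - k) * ((n + 1) * nb (n + 1) n u)) u :=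
    fun u => (hasDerivAt_nb n u).const_mul _
  have hmono : StrictMonoOn Φ (Set.Icc (k : ℝ) (k + 1)) := by
    apply strictMonoOn_of_deriv_pos (convex_Icc _ _)
    · exact fun u _ => (hd u).continuousAt.continuousWithinAt
    · intro u hu
      rw [interior_Icc] at hu
      rw [(hd u).deriv, nb_succ]
      have := sign_prod hk hu.1 hu.2
      have h3 : (0 : ℝ) < n + 1 := by positivity
      have h4 := mul_pos h3 this
      linarith
  have h := hmono (Set.left_mem_Icc.mpr (by linarith)) (Set.right_mem_Icc.mpr (by linarith))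
    (by linarith : (k : ℝ) < k + 1)
  simp only [hΦ] at h
  have hdiff := nb_diff n (k : ℝ)
  have h3 : (0 : ℝ) < n + 1 := by positivity
  have h4 : 0 < (n + 1 : ℝ) * ((-1) ^ (n - k) * nb n n k) := by
    have : (n + 1 : ℝ) * ((-1) ^ (n - k) * nb n n k) =
        (-1) ^ (n - k) * (nb (n + 1) (n + 1) (k + 1)) - (-1) ^ (n - k) * nb (n + 1) (n + 1) k := by
      rw [← mul_sub, hdiff]; ring
    rw [this]; linarith
  exact (mul_pos_iff_of_pos_left h3).mp h4

theorem exists_root {n k : ℕ} (hk : k < n) : ∃ r : ℝ, (k : ℝ) < r ∧ r < k + 1 ∧ nb n n r = 0 := by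
  have h1 := sign_nb (le_of_lt hk)
  have h2 := sign_nb (Nat.succ_le_of_lt hk)
  have hcont := continuous_nb n
  have e : n - k = (n - (k + 1)) + 1 := by omega
  rw [e, pow_succ] at h1
  push_cast at h2
  set s : ℝ := (-1) ^ (n - (k + 1)) with hs
  have hf : ContinuousOn (fun u => s * nb n n u) (Set.Icc (k : ℝ) (k + 1)) :=
    (continuous_const.mul hcont).continuousOn
  have hiv := intermediate_value_Icc (by linarith : (k : ℝ) ≤ k + 1) hf
  have hmem : (0 : ℝ) ∈ Set.Icc (s * nb n n k) (s * nb n n (k + 1)) := by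
    constructor
    · linarith
    · exact h2.le
  obtain ⟨r, hr, hr0⟩ := hiv hmem
  have hs0 : s ≠ 0 := by rw [hs]; exact pow_ne_zero _ (by norm_num)
  have hr0' : s * nb n n r = 0 := hr0
  have hz : nb n n r = 0 := (mul_eq_zero.mp hr0').resolve_left hs0
  refine ⟨r, lt_of_le_of_ne hr.1 ?_, lt_of_le_of_ne hr.2 ?_, hz⟩
  · rintro rfl
    rw [hz] at h1; simp at h1
  · rintro rfl
    rw [hz] at h2; simp at h2

/-- The Taylor polynomial at `x`. -/
noncomputable def T (n : ℕ) (x : ℝ) : Polynomial ℝ :=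
  ∑ r ∈ range (n + 1), Polynomial.C ((n.choose r : ℝ) * nb n (n - r) x) * Polynomial.X ^ r

theorem T_coeff (n : ℕ) (x : ℝ) (r : ℕ) :
    (T n x).coeff r = if r ≤ n then (n.choose r : ℝ) * nb n (n - r) x else 0 := by
  rw [T, Polynomial.finsetSum_coeff]
  simp only [Polynomial.coeff_C_mul, Polynomial.coeff_X_pow, mul_ite, mul_one, mul_zero]
  rw [Finset.sum_ite_eq]
  simp [Nat.lt_succ_iff]

theorem T_eval (n : ℕ) (x y : ℝ) : (T n x).eval y = nb n n (x + y) := by
  rw [nb_add, T, Polynomial.eval_finsetSum]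
  apply Finset.sum_congr rfl
  intro r _
  simp
  ring

theorem T_monic (n : ℕ) (x : ℝ) : (T n x).Monic := by
  apply Polynomial.monic_of_natDegree_le_of_coeff_eq_one n
  · rw [Polynomial.natDegree_le_iff_coeff_eq_zero]
    intro N hN
    rw [T_coeff, if_neg (not_le.mpr hN)]
  · rw [T_coeff, if_pos le_rfl]
    simp [nb_zero]

theorem T_natDegree_le (n : ℕ) (x : ℝ) : (T n x).natDegree ≤ n := by
  rw [Polynomial.natDegree_le_iff_coeff_eq_zero]
  intro N hN
  rw [T_coeff, if_neg (not_le.mpr hN)]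

theorem T_split (n : ℕ) (x : ℝ) : ∃ s : Multiset ℝ,
    T n x = (s.map fun a => Polynomial.X + Polynomial.C a).prod := by
  classical
  have hr : ∀ k : Fin n, ∃ r : ℝ, ((k : ℕ) : ℝ) < r ∧ r < (k : ℕ) + 1 ∧ nb n n r = 0 :=
    fun k => exists_root k.2
  choose r hr1 hr2 hr3 using hr
  have hinj : Function.Injective fun k : Fin n => r k - x := by
    intro i j hij
    have hij' : r i = r j := by simpa using hij
    by_contra hne
    rcases lt_or_gt_of_ne (fun h => hne (Fin.ext h) : (i : ℕ) ≠ j) with h | h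
    · have h1 : ((i : ℕ) : ℝ) + 1 ≤ (j : ℕ) := by exact_mod_cast h
      have := hr2 i; have := hr1 j; linarith
    · have h1 : ((j : ℕ) : ℝ) + 1 ≤ (i : ℕ) := by exact_mod_cast h
      have := hr2 j; have := hr1 i; linarith
  have hmon := T_monic n x
  have hsub : Finset.univ.image (fun k : Fin n => r k - x) ⊆ (T n x).roots.toFinset := by
    intro y hy
    obtain ⟨k, -, rfl⟩ := Finset.mem_image.mp hy
    rw [Multiset.mem_toFinset, Polynomial.mem_roots hmon.ne_zero, Polynomial.IsRoot.def, T_eval]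
    rw [add_sub_cancel]
    exact hr3 k
  have hcard : n ≤ Multiset.card (T n x).roots := by
    calc n = (Finset.univ.image (fun k : Fin n => r k - x)).card := by
          rw [Finset.card_image_of_injective _ hinj]; simp
      _ ≤ _ := Finset.card_le_card hsub
      _ ≤ _ := Multiset.toFinset_card_le _
  have hcard' : Multiset.card (T n x).roots = (T n x).natDegree :=
    le_antisymm (Polynomial.card_roots' _) ((T_natDegree_le n x).trans hcard)
  have := Polynomial.prod_multiset_X_sub_C_of_monic_of_roots_card_eq hmon hcard'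
  refine ⟨(T n x).roots.map (fun a => -a), ?_⟩
  rw [Multiset.map_map]
  conv_lhs => rw [← this]
  congr 1
  apply Multiset.map_congr rfl
  intro a _
  simp [sub_eq_add_neg]

theorem comp_neg_X_coeff' (p : Polynomial ℝ) (i : ℕ) :
    (p.comp (-Polynomial.X)).coeff i = (-1) ^ i * p.coeff i := by
  have : (-Polynomial.X : Polynomial ℝ) = Polynomial.C (-1) * Polynomial.X := by simp
  rw [this, Polynomial.comp_C_mul_X_coeff, mul_comm]

/-- Nonnegativity of the coefficients of `T(Y) T(-Y)` up to sign. -/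
theorem coeff_nonneg (s : Multiset ℝ) (k : ℕ) :
    0 ≤ (-1) ^ k * (((s.map fun a => Polynomial.X + Polynomial.C a).prod *
      ((s.map fun a => Polynomial.X + Polynomial.C a).prod.comp (-Polynomial.X))).coeff (2 * k) :
        ℝ) := by
  -- `R(Z) = ∏ (Z + a²)`
  have hR : ∃ R : Polynomial ℝ, (∀ i, 0 ≤ R.coeff i) ∧
      (s.map fun a => Polynomial.X + Polynomial.C a).prod *
      ((s.map fun a => Polynomial.X + Polynomial.C a).prod.comp (-Polynomial.X)) =
      (R.comp (-Polynomial.X)).comp (Polynomial.X ^ 2) := by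
    induction s using Multiset.induction_on with
    | empty => exact ⟨1, fun i => by rw [Polynomial.coeff_one]; split_ifs <;> norm_num, by simp⟩
    | cons a s ih =>
      obtain ⟨R, hR1, hR2⟩ := ih
      refine ⟨(Polynomial.X + Polynomial.C (a ^ 2)) * R, ?_, ?_⟩
      · intro i
        rw [add_mul, Polynomial.coeff_add, Polynomial.coeff_C_mul]
        have h1 : 0 ≤ (Polynomial.X * R).coeff i := by
          cases i with
          | zero => simp
          | succ i => rw [Polynomial.coeff_X_mul]; exact hR1 i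
        have h2 : 0 ≤ a ^ 2 * R.coeff i := mul_nonneg (sq_nonneg a) (hR1 i)
        linarith
      · rw [Multiset.map_cons, Multiset.prod_cons, Polynomial.mul_comp, Polynomial.mul_comp,
          Polynomial.mul_comp]
        calc _ = ((Polynomial.X + Polynomial.C a) * ((Polynomial.X + Polynomial.C a).comp
              (-Polynomial.X))) * ((s.map fun a => Polynomial.X + Polynomial.C a).prod *
              ((s.map fun a => Polynomial.X + Polynomial.C a).prod.comp (-Polynomial.X))) := by ring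
          _ = _ := by
            rw [hR2]
            congr 1
            simp only [Polynomial.add_comp, Polynomial.X_comp, Polynomial.C_comp,
              Polynomial.neg_comp, map_pow, Polynomial.pow_comp]
            ring
  obtain ⟨R, hR1, hR2⟩ := hR
  rw [hR2, ← Polynomial.expand_eq_comp_X_pow, Polynomial.coeff_expand_mul' (by norm_num)]
  have h3 : (R.comp (-Polynomial.X)).coeff k = (-1) ^ k * R.coeff k := by
    rw [comp_neg_X_coeff']
  rw [h3, ← mul_assoc, ← mul_pow]
  simp [hR1 k]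

theorem sum_nonneg' (n : ℕ) (x : ℝ) (k : ℕ) :
    0 ≤ (-1) ^ k * ∑ j ∈ range (2 * k + 1),
      (-1) ^ j * ((T n x).coeff j * (T n x).coeff (2 * k - j)) := by
  obtain ⟨s, hs⟩ := T_split n x
  have h := coeff_nonneg s k
  rw [← hs, Polynomial.coeff_mul, Finset.Nat.sum_antidiagonal_eq_sum_range_succ_mk] at h
  convert h using 2
  apply Finset.sum_congr rfl
  intro j hj
  have hj' : j ≤ 2 * k := Nat.lt_succ_iff.mp (mem_range.mp hj)
  simp only
  rw [comp_neg_X_coeff']
  have : (-1 : ℝ) ^ (2 * k - j) = (-1) ^ j := by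
    have h1 : (-1 : ℝ) ^ (2 * k - j) * (-1) ^ j = 1 := by
      rw [← pow_add, Nat.sub_add_cancel hj', pow_mul]; norm_num
    have h2 : (-1 : ℝ) ^ j * (-1) ^ j = 1 := by
      rw [← mul_pow]; norm_num
    have h3 : (-1 : ℝ) ^ j ≠ 0 := pow_ne_zero _ (by norm_num)
    exact mul_right_cancel₀ h3 (h1.trans h2.symm)
  rw [this]
  ring

theorem alpha_nonneg (n k : ℕ) (hk : 2 * k ≤ n) (x : ℝ) : 0 ≤ alpha n k x := by
  have h := sum_nonneg' n x k
  rw [alpha]
  convert h using 2
  apply Finset.sum_congr rfl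
  intro j hj
  have hj' : j ≤ 2 * k := Nat.lt_succ_iff.mp (mem_range.mp hj)
  rw [T_coeff, T_coeff, if_pos (by omega), if_pos (by omega)]
  have : n - (2 * k - j) = n - 2 * k + j := by omega
  rw [this]
  ring

theorem beta_nonneg (n k : ℕ) (hk : 2 * k + 1 ≤ n) (x : ℝ) : 0 ≤ beta n k x := by
  have h := sum_nonneg' n x (n - k)
  rw [beta]
  set f : ℕ → ℝ := fun j => (-1) ^ j * ((T n x).coeff j * (T n x).coeff (2 * (n - k) - j)) with hf
  have h1 : ∑ j ∈ range (2 * (n - k) + 1), f j = ∑ j ∈ Ico (n - 2 * k) (n + 1), f j := by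
    symm
    apply Finset.sum_subset
    · intro j hj
      rw [mem_Ico] at hj
      rw [mem_range]; omega
    · intro j hj hj'
      rw [mem_range] at hj
      rw [mem_Ico] at hj'
      have : n < j ∨ n < 2 * (n - k) - j := by omega
      rcases this with h2 | h2
      · simp only [hf]; rw [T_coeff n x j, if_neg (by omega)]; ring
      · simp only [hf]; rw [T_coeff n x (2 * (n - k) - j), if_neg (by omega)]; ring
  rw [h1, Finset.sum_Ico_eq_sum_range] at h
  have e : n + 1 - (n - 2 * k) = 2 * k + 1 := by omega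
  rw [e, Finset.mul_sum] at h
  rw [Finset.mul_sum]
  convert h using 1
  apply Finset.sum_congr rfl
  intro i hi
  have hi' : i ≤ 2 * k := Nat.lt_succ_iff.mp (mem_range.mp hi)
  simp only [hf]
  rw [T_coeff, T_coeff, if_pos (by omega), if_pos (by omega)]
  have e1 : n - (n - 2 * k + i) = 2 * k - i := by omega
  have e2 : 2 * (n - k) - (n - 2 * k + i) = n - i := by omega
  have e3 : n - (n - i) = i := by omega
  have e4 : n.choose (n - 2 * k + i) = n.choose (2 * k - i) := by
    rw [← Nat.choose_symm (by omega : 2 * k - i ≤ n)]; congr 1; omega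
  have e5 : n.choose (n - i) = n.choose i := Nat.choose_symm (by omega)
  rw [e1, e2, e3, e4, e5]
  have e6 : (-1 : ℝ) ^ (n - k) * (-1) ^ (n - 2 * k + i) = (-1) ^ k * (-1) ^ i := by
    obtain ⟨m, rfl⟩ : ∃ m, n = 2 * k + m := ⟨n - 2 * k, by omega⟩
    have g1 : 2 * k + m - k = k + m := by omega
    have g2 : 2 * k + m - 2 * k + i = m + i := by omega
    rw [g1, g2, pow_add, pow_add]
    have : (-1 : ℝ) ^ m * (-1) ^ m = 1 := by rw [← mul_pow]; norm_num
    linear_combination (-1 : ℝ) ^ k * (-1) ^ i * this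
  calc _ = ((-1 : ℝ) ^ k * (-1) ^ i) * ((n.choose i : ℝ) * (n.choose (2 * k - i) : ℝ) *
        nb n i x * nb n (2 * k - i) x) := by ring
    _ = _ := by rw [← e6]; ring

/-- Q1: for every `n ≥ 1` and real `x`, `α_{n,k}(x) ≥ 0` for `1 ≤ 2k ≤ n` and
`β_{n,k}(x) ≥ 0` for `0 ≤ 2k ≤ n - 1`. -/
theorem result : ∀ n : ℕ, 1 ≤ n → ∀ x : ℝ,
    (∀ k : ℕ, 1 ≤ 2 * k → 2 * k ≤ n → 0 ≤ alpha n k x) ∧
    (∀ k : ℕ, 2 * k ≤ n - 1 → 0 ≤ beta n k x) :=
  fun n hn x => ⟨fun k _ hk => alpha_nonneg n k hk x,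
    fun k hk => beta_nonneg n k (by omega) x⟩

end Pool.Agent.Results.MP_6eafb7_an.NorlundPositivity
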